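import Mathlib

set_option autoImplicit false

set_option linter.unusedSimpArgs false
set_option linter.unreachableTactic false
set_option linter.unusedTactic false

namespace Pool.Agent.Results.MP_5cdc7f_al.OddLoop

/-! # Loops, translations, inner maps, centre and central series -/

/-- a loop: a product with a neutral element for which both division equations have unique
solutions -/
class IsLoop (X : Type) [Mul X] [One X] : Prop where
  one_mul : ∀ x : X, 1 * x = x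
  mul_one : ∀ x : X, x * 1 = x
  left_div : ∀ a b : X, ∃! x, a * x = b
  right_div : ∀ a b : X, ∃! y, y * a = b

section defs

variable (X : Type) [Mul X] [One X]

/-- the multiplication group: the permutation group generated by all left translations
`x ↦ a * x` and all right translations `x ↦ x * a` -/
def Mlt : Subgroup (Equiv.Perm X) :=
  Subgroup.closure {π : Equiv.Perm X | ∃ a : X, (∀ x, π x = a * x) ∨ (∀ x, π x = x * a)}

/-- the inner mapping group: the stabiliser of `1` in the multiplication group -/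
def Inn : Subgroup (Equiv.Perm X) := Mlt X ⊓ MulAction.stabilizer (Equiv.Perm X) (1 : X)

/-- the upper central series as subsets: `Zs 0 = {1}`, and `Zs (i+1)` is the set of those `a`
for which, for all `x` and `y`, each of the four pairs `a x, x a`; `(a x) y, a (x y)`;
`(x a) y, x (a y)`; `(x y) a, x (y a)` is equal modulo `Zs i` (that is, lies in one coset
`v * Zs i`), so that `Zs (i+1)` is the preimage of the centre of the quotient by `Zs i` -/
def Zs : ℕ → Set X
  | 0 => {1}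
  | i + 1 => {a | ∀ x y : X,
      (∃ c ∈ Zs i, a * x = (x * a) * c) ∧
      (∃ c ∈ Zs i, (a * x) * y = (a * (x * y)) * c) ∧
      (∃ c ∈ Zs i, (x * a) * y = (x * (a * y)) * c) ∧
      (∃ c ∈ Zs i, (x * y) * a = (x * (y * a)) * c)}

/-- nilpotent of class `n`: `n` is least with `Zs n` the whole loop -/
def HasClass (n : ℕ) : Prop := Zs X n = Set.univ ∧ ∀ k < n, Zs X k ≠ Set.univ

end defs

/-! The example: over `F = ZMod 3` put `V = F^4` and let
`Q = V x L3 V x L2 V x L4 V` (exterior powers in coordinates). -/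

abbrev F := ZMod 3
abbrev V := Fin 4 → F
abbrev W := Fin 4 → F
abbrev B := Fin 6 → F
abbrev Q := V × W × B × F

/-- wedge of two vectors -/
def w11 (v w : V) : B :=
  ![v 0 * w 1 - v 1 * w 0, v 0 * w 2 - v 2 * w 0, v 0 * w 3 - v 3 * w 0,
    v 1 * w 2 - v 2 * w 1, v 1 * w 3 - v 3 * w 1, v 2 * w 3 - v 3 * w 2]

/-- wedge of two bivectors -/
def w22 (a b : B) : F :=
  a 0 * b 5 - a 1 * b 4 + a 2 * b 3 + a 3 * b 2 - a 4 * b 1 + a 5 * b 0

/-- wedge of a vector and a trivector -/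
def w13 (v : V) (t : W) : F :=
  v 0 * t 3 - v 1 * t 2 + v 2 * t 1 - v 3 * t 0

/-- wedge of a bivector and a vector -/
def w21 (a : B) (y : V) : W :=
  ![a 0 * y 2 - a 1 * y 1 + a 3 * y 0, a 0 * y 3 - a 2 * y 1 + a 4 * y 0,
    a 1 * y 3 - a 2 * y 2 + a 5 * y 0, a 3 * y 3 - a 4 * y 2 + a 5 * y 1]

/-- the commutative cochain whose associator is the triple wedge -/
def f1 (v w : V) : W :=
  ![(v 2 - w 2) * (v 0 * w 1 - v 1 * w 0), (v 3 - w 3) * (v 0 * w 1 - v 1 * w 0),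
    (v 3 - w 3) * (v 0 * w 2 - v 2 * w 0), (v 3 - w 3) * (v 1 * w 2 - v 2 * w 1)]

def mul (x y : Q) : Q :=
  (x.1 + y.1, x.2.1 + y.2.1 + f1 x.1 y.1, x.2.2.1 + y.2.2.1 - w11 x.1 y.1,
    x.2.2.2 + y.2.2.2 + w22 (y.2.2.1 - x.2.2.1) (w11 x.1 y.1) - w13 x.1 y.2.1)

/-- the explicit inner maps -/
def hm (b : V) (o : B) (q : V → F) (x : Q) : Q :=
  (x.1, x.2.1 + w21 o x.1, x.2.2.1 + w11 b x.1, x.2.2.2 - w13 b x.2.1 - w22 o x.2.2.1 + q x.1)

theorem key (b : V) (o : B) (y : V) : w13 b (w21 o y) = w22 o (w11 b y) := by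
  simp only [w13, w21, w22, w11, Matrix.cons_val]
  ring

theorem w13_add (b : V) (s t : W) : w13 b (s + t) = w13 b s + w13 b t := by
  simp only [w13, Pi.add_apply]; ring

theorem w22_add (b : B) (s t : B) : w22 b (s + t) = w22 b s + w22 b t := by
  simp only [w22, Pi.add_apply]; ring

theorem hm_comm (b b' : V) (o o' : B) (q q' : V → F) (x : Q) :
    hm b o q (hm b' o' q' x) = hm b' o' q' (hm b o q x) := by
  refine Prod.ext rfl (Prod.ext ?_ (Prod.ext ?_ ?_))
  · simp only [hm]; abel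
  · simp only [hm]; abel
  · simp only [hm, w13_add, w22_add, key]; ring

theorem three : (3 : F) = 0 := by decide

/-- associator of `f1` -/
theorem f1_assoc (v w y : V) :
    f1 w y + f1 v (w + y) = f1 v w + f1 (v + w) y + w21 (- w11 v w) y := by
  have h3 := three
  ext i
  fin_cases i <;> simp only [f1, w21, w11, Pi.add_apply, Pi.neg_apply, Matrix.cons_val,
    Fin.zero_eta, Fin.mk_one, Fin.reduceFinMk]
  · linear_combination (w 2 * y 0 * v 1 - w 2 * y 1 * v 0) * h3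
  · linear_combination (w 3 * y 0 * v 1 - w 3 * y 1 * v 0) * h3
  · linear_combination (w 3 * y 0 * v 2 - w 3 * y 2 * v 0) * h3
  · linear_combination (w 3 * y 1 * v 2 - w 3 * y 2 * v 1) * h3

theorem f1_comm (v w : V) : f1 v w = f1 w v := by
  ext i
  fin_cases i <;> simp only [f1, Matrix.cons_val,
    Fin.zero_eta, Fin.mk_one, Fin.reduceFinMk] <;> ring

/-- the other form, for `R_x L_y` -/
theorem f1_assoc' (v w y : V) :
    f1 w y + f1 (w + y) v = f1 w v + f1 (w + v) y + w21 (w11 w v) y := by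
  have h := f1_assoc v w y
  rw [f1_comm (w + y) v, h, f1_comm w v, add_comm w v]
  congr 2
  ext i
  fin_cases i <;> simp only [w11, Pi.neg_apply, Matrix.cons_val,
    Fin.zero_eta, Fin.mk_one, Fin.reduceFinMk] <;> ring

/-- left translations: `L_x L_y = L_{xy} h` -/
theorem left_left (x y : Q) : ∃ (b : V) (o : B) (q : V → F), ∀ u : Q,
    mul x (mul y u) = mul (mul x y) (hm b o q u) := by
  refine ⟨0, - w11 x.1 y.1, fun u => (mul x (mul y (u, 0, 0, 0))).2.2.2
      - (mul (mul x y) (hm 0 (- w11 x.1 y.1) 0 (u, 0, 0, 0))).2.2.2, ?_⟩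
  rintro ⟨u, r1, r2, z⟩
  obtain ⟨v, s1, s2, zx⟩ := x
  obtain ⟨w, t1, t2, zy⟩ := y
  refine Prod.ext ?_ (Prod.ext ?_ (Prod.ext ?_ ?_))
  · simp only [mul, hm]; abel
  · have h := f1_assoc v w u
    simp only [mul, hm]
    calc s1 + (t1 + r1 + f1 w u) + f1 v (w + u)
        = s1 + t1 + r1 + (f1 w u + f1 v (w + u)) := by abel
      _ = _ := by rw [h]; abel
  · simp only [mul, hm]
    ext i
    fin_cases i <;>
    simp [w11] <;> ring
  · simp only [mul, hm, w13, w22, w11, w21, f1, Pi.add_apply, Pi.sub_apply, Pi.neg_apply,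
      Pi.zero_apply, Matrix.cons_val]
    ring

/-- right translations: `R_x L_y = L_{yx} h` -/
theorem right_left (x y : Q) : ∃ (b : V) (o : B) (q : V → F), ∀ u : Q,
    mul (mul y u) x = mul (mul y x) (hm b o q u) := by
  refine ⟨- x.1, w11 y.1 x.1, fun u => (mul (mul y (u, 0, 0, 0)) x).2.2.2
      - (mul (mul y x) (hm (- x.1) (w11 y.1 x.1) 0 (u, 0, 0, 0))).2.2.2, ?_⟩
  rintro ⟨u, r1, r2, z⟩
  obtain ⟨v, s1, s2, zx⟩ := x
  obtain ⟨w, t1, t2, zy⟩ := y
  refine Prod.ext ?_ (Prod.ext ?_ (Prod.ext ?_ ?_))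
  · simp only [mul, hm]; abel
  · have h := f1_assoc' v w u
    simp only [mul, hm]
    calc (t1 + r1 + f1 w u) + s1 + f1 (w + u) v
        = s1 + t1 + r1 + (f1 w u + f1 (w + u) v) := by abel
      _ = _ := by rw [h]; abel
  · simp only [mul, hm]
    have h3 := three
    ext i
    fin_cases i <;> simp only [w11, Pi.add_apply, Pi.sub_apply, Pi.neg_apply, Matrix.cons_val,
    Fin.zero_eta, Fin.mk_one, Fin.reduceFinMk]
    · linear_combination (u 1 * v 0 - u 0 * v 1) * h3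
    · linear_combination (u 2 * v 0 - u 0 * v 2) * h3
    · linear_combination (u 3 * v 0 - u 0 * v 3) * h3
    · linear_combination (u 2 * v 1 - u 1 * v 2) * h3
    · linear_combination (u 3 * v 1 - u 1 * v 3) * h3
    · linear_combination (u 3 * v 2 - u 2 * v 3) * h3
  · simp only [mul, hm, w13, w22, w11, w21, f1, Pi.add_apply, Pi.sub_apply, Pi.neg_apply,
      Pi.zero_apply, Matrix.cons_val]
    ring

theorem w11_zero_left (v : V) : w11 0 v = 0 := by
  ext i; fin_cases i <;> simp [w11]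

theorem w11_zero_right (v : V) : w11 v 0 = 0 := by
  ext i; fin_cases i <;> simp [w11]

theorem f1_zero_left (v : V) : f1 0 v = 0 := by
  ext i; fin_cases i <;> simp [f1]

theorem f1_zero_right (v : V) : f1 v 0 = 0 := by
  ext i; fin_cases i <;> simp [f1]

theorem w22_zero_right (v : B) : w22 v 0 = 0 := by simp [w22]

theorem w22_zero_left (v : B) : w22 0 v = 0 := by simp [w22]

theorem w13_zero_right (v : V) : w13 v 0 = 0 := by simp [w13]

theorem w13_zero_left (v : W) : w13 0 v = 0 := by simp [w13]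

theorem w21_zero_left (v : V) : w21 0 v = 0 := by
  ext i; fin_cases i <;> simp [w21]

theorem w21_zero_right (o : B) : w21 o 0 = 0 := by
  ext i; fin_cases i <;> simp [w21]

theorem one_mul' (x : Q) : mul 0 x = x := by
  refine Prod.ext ?_ (Prod.ext ?_ (Prod.ext ?_ ?_)) <;>
  simp [mul, w11_zero_left, f1_zero_left, w22_zero_right, w13_zero_left]

theorem mul_one' (x : Q) : mul x 0 = x := by
  refine Prod.ext ?_ (Prod.ext ?_ (Prod.ext ?_ ?_)) <;>
  simp [mul, w11_zero_right, f1_zero_right, w22_zero_right, w13_zero_right]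

theorem left_div (a b : Q) : ∃! x, mul a x = b := by
  obtain ⟨a1, a2, a3, a4⟩ := a
  obtain ⟨b1, b2, b3, b4⟩ := b
  refine ⟨(b1 - a1, b2 - a2 - f1 a1 (b1 - a1), b3 - a3 + w11 a1 (b1 - a1),
    b4 - a4 - w22 (b3 - a3 + w11 a1 (b1 - a1) - a3) (w11 a1 (b1 - a1))
      + w13 a1 (b2 - a2 - f1 a1 (b1 - a1))), ?_, ?_⟩
  · refine Prod.ext ?_ (Prod.ext ?_ (Prod.ext ?_ ?_)) <;> simp only [mul] <;> abel
  · rintro ⟨x1, x2, x3, x4⟩ h
    simp only [mul, Prod.mk.injEq] at h
    obtain ⟨h1, h2, h3, h4⟩ := h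
    have e1 : x1 = b1 - a1 := by rw [← h1]; abel
    subst e1
    have e2 : x2 = b2 - a2 - f1 a1 (b1 - a1) := by rw [← h2]; abel
    subst e2
    have e3 : x3 = b3 - a3 + w11 a1 (b1 - a1) := by rw [← h3]; abel
    subst e3
    have e4 : x4 = b4 - a4 - w22 (b3 - a3 + w11 a1 (b1 - a1) - a3) (w11 a1 (b1 - a1))
      + w13 a1 (b2 - a2 - f1 a1 (b1 - a1)) := by rw [← h4]; abel
    subst e4
    rfl

theorem right_div (a b : Q) : ∃! x, mul x a = b := by
  obtain ⟨a1, a2, a3, a4⟩ := a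
  obtain ⟨b1, b2, b3, b4⟩ := b
  refine ⟨(b1 - a1, b2 - a2 - f1 (b1 - a1) a1, b3 - a3 + w11 (b1 - a1) a1,
    b4 - a4 - w22 (a3 - (b3 - a3 + w11 (b1 - a1) a1)) (w11 (b1 - a1) a1)
      + w13 (b1 - a1) a2), ?_, ?_⟩
  · refine Prod.ext ?_ (Prod.ext ?_ (Prod.ext ?_ ?_)) <;> simp only [mul] <;> abel
  · rintro ⟨x1, x2, x3, x4⟩ h
    simp only [mul, Prod.mk.injEq] at h
    obtain ⟨h1, h2, h3, h4⟩ := h
    have e1 : x1 = b1 - a1 := by rw [← h1]; abel
    subst e1
    have e2 : x2 = b2 - a2 - f1 (b1 - a1) a1 := by rw [← h2]; abel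
    subst e2
    have e3 : x3 = b3 - a3 + w11 (b1 - a1) a1 := by rw [← h3]; abel
    subst e3
    have e4 : x4 = b4 - a4 - w22 (a3 - (b3 - a3 + w11 (b1 - a1) a1)) (w11 (b1 - a1) a1)
      + w13 (b1 - a1) a2 := by rw [← h4]; abel
    subst e4
    rfl

theorem w21_add (a b : B) (y : V) : w21 (a + b) y = w21 a y + w21 b y := by
  ext i; fin_cases i <;> simp [w21] <;> ring

theorem w11_add (a b : V) (y : V) : w11 (a + b) y = w11 a y + w11 b y := by
  ext i; fin_cases i <;> simp [w11] <;> ring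

theorem w13_add_left (a b : V) (t : W) : w13 (a + b) t = w13 a t + w13 b t := by
  simp only [w13, Pi.add_apply]; ring

theorem w22_add_left (a b : B) (t : B) : w22 (a + b) t = w22 a t + w22 b t := by
  simp only [w22, Pi.add_apply]; ring

theorem hm_comp (b b' : V) (o o' : B) (q q' : V → F) :
    ∃ q'' : V → F, ∀ u, hm b o q (hm b' o' q' u) = hm (b + b') (o + o') q'' u := by
  refine ⟨fun v => q' v + q v - w13 b (w21 o' v) - w22 o (w11 b' v), ?_⟩
  rintro ⟨u, r1, r2, z⟩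
  refine Prod.ext rfl (Prod.ext ?_ (Prod.ext ?_ ?_))
  · simp only [hm, w21_add]; abel
  · simp only [hm, w11_add]; abel
  · simp only [hm, w13_add, w22_add, w13_add_left, w22_add_left]; ring

theorem hm_inv (b : V) (o : B) (q : V → F) :
    ∃ (b' : V) (o' : B) (q' : V → F), ∀ u, hm b o q (hm b' o' q' u) = u := by
  refine ⟨-b, -o, fun v => - q v + w13 b (w21 (-o) v) + w22 o (w11 (-b) v), ?_⟩
  rintro ⟨u, r1, r2, z⟩
  have h1 : w21 (-o) u = - w21 o u := by
    have := w21_add (-o) o u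
    rw [neg_add_cancel, w21_zero_left] at this
    exact eq_neg_of_add_eq_zero_left this.symm
  have h2 : w11 (-b) u = - w11 b u := by
    have := w11_add (-b) b u
    rw [neg_add_cancel, w11_zero_left] at this
    exact eq_neg_of_add_eq_zero_left this.symm
  have h3 : ∀ t, w13 (-b) t = - w13 b t := by
    intro t
    have := w13_add_left (-b) b t
    rw [neg_add_cancel, w13_zero_left] at this
    exact eq_neg_of_add_eq_zero_left this.symm
  have h4 : ∀ t, w22 (-o) t = - w22 o t := by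
    intro t
    have := w22_add_left (-o) o t
    rw [neg_add_cancel, w22_zero_left] at this
    exact eq_neg_of_add_eq_zero_left this.symm
  refine Prod.ext rfl (Prod.ext ?_ (Prod.ext ?_ ?_))
  · simp only [hm, h1]; abel
  · simp only [hm, h2]; abel
  · simp only [hm, w13_add, w22_add, h3, h4]; ring


theorem not_central_comm (c : Q)
    (hc : ∀ u v, mul c u = mul u c ∧
              mul (mul c u) v = mul c (mul u v) ∧
              mul (mul u c) v = mul u (mul c v) ∧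
              mul (mul u v) c = mul u (mul v c))
    (h : mul (![1, 0, 0, 0], 0, 0, 0) (![0, 1, 0, 0], 0, 0, 0) =
      mul (mul (![0, 1, 0, 0], 0, 0, 0) (![1, 0, 0, 0], 0, 0, 0)) c) : False := by
  obtain ⟨c1, c2, c3, c4⟩ := c
  have e1 : c1 = 0 := by
    have := congrArg (fun p : Q => p.1) h
    simp only [mul] at this
    have h2 : (![1, 0, 0, 0] : V) + ![0, 1, 0, 0] = ![0, 1, 0, 0] + ![1, 0, 0, 0] := add_comm _ _
    rw [h2] at this
    exact left_eq_add.mp this
  subst e1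
  have e3 : c3 0 = 1 := by
    have := congrArg (fun p : Q => p.2.2.1 0) h
    simp only [mul, w11, Pi.add_apply, Pi.sub_apply, Pi.zero_apply, Matrix.cons_val] at this
    have h3 := three
    linear_combination (-1 : F) * this - h3
  have h1 := (hc (![0, 0, 1, 0], 0, 0, 0) (![0, 0, 0, 1], 0, 0, 0)).2.1
  have := congrArg (fun p : Q => p.2.2.2) h1
  simp only [mul, w11, w13, w22, f1, Pi.add_apply, Pi.sub_apply, Pi.zero_apply, Matrix.cons_val] at this
  have h4 : c3 0 = 0 := by linear_combination (-1 : F) * this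
  rw [e3] at h4
  exact absurd h4 (by decide)

/-! # The product of the example with a cyclic group -/

variable {k : ℕ}

/-- the underlying set of the loop of order `3 ^ 15 * k` -/
@[ext]
structure P (k : ℕ) where
  /-- the first coordinate -/
  l : Q
  /-- the second coordinate -/
  r : ZMod k

instance : Mul (P k) := ⟨fun x y => ⟨mul x.l y.l, x.r + y.r⟩⟩

instance : One (P k) := ⟨⟨0, 0⟩⟩

@[simp] theorem P_mul_l (x y : P k) : (x * y).l = mul x.l y.l := rfl
@[simp] theorem P_mul_r (x y : P k) : (x * y).r = x.r + y.r := rfl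
@[simp] theorem P_one_l : (1 : P k).l = 0 := rfl
@[simp] theorem P_one_r : (1 : P k).r = 0 := rfl

theorem P_loop : IsLoop (P k) where
  one_mul x := P.ext (one_mul' x.l) (zero_add x.r)
  mul_one x := P.ext (mul_one' x.l) (add_zero x.r)
  left_div a b := by
    obtain ⟨x, hx, hu⟩ := left_div a.l b.l
    refine ⟨⟨x, b.r - a.r⟩, P.ext hx (by simp), ?_⟩
    intro y hy
    refine P.ext (hu _ (congrArg P.l hy)) ?_
    have := congrArg P.r hy
    simp only [P_mul_r] at this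
    exact eq_sub_of_add_eq' this
  right_div a b := by
    obtain ⟨x, hx, hu⟩ := right_div a.l b.l
    refine ⟨⟨x, b.r - a.r⟩, P.ext hx (by simp), ?_⟩
    intro y hy
    refine P.ext (hu _ (congrArg P.l hy)) ?_
    have := congrArg P.r hy
    simp only [P_mul_r] at this
    exact eq_sub_of_add_eq this

/-- the admissible maps `L_y h` -/
def Adm (g : P k → P k) : Prop :=
  ∃ (y : Q) (b : V) (o : B) (q : V → F) (c : ZMod k), ∀ u, g u = ⟨mul y (hm b o q u.l), u.r + c⟩

theorem adm_left (x : P k) (g : P k → P k) (hg : Adm g) : Adm (fun u => x * (g u)) := by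
  obtain ⟨y, b, o, q, c, h⟩ := hg
  obtain ⟨b', o', q', h'⟩ := left_left x.l y
  obtain ⟨q'', h''⟩ := hm_comp b' b o' o q' q
  refine ⟨mul x.l y, b' + b, o' + o, q'', x.r + c, fun u => ?_⟩
  beta_reduce
  rw [h]
  refine P.ext ?_ ?_
  · simp only [P_mul_l, h', h'']
  · simp only [P_mul_r]; ring

theorem adm_right (x : P k) (g : P k → P k) (hg : Adm g) : Adm (fun u => (g u) * x) := by
  obtain ⟨y, b, o, q, c, h⟩ := hg
  obtain ⟨b', o', q', h'⟩ := right_left x.l y
  obtain ⟨q'', h''⟩ := hm_comp b' b o' o q' q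
  refine ⟨mul y x.l, b' + b, o' + o, q'', c + x.r, fun u => ?_⟩
  beta_reduce
  rw [h]
  refine P.ext ?_ ?_
  · simp only [P_mul_l, h', h'']
  · simp only [P_mul_r]; ring

theorem adm_left_inv (x : P k) (g g' : P k → P k) (hg : Adm g) (hk : ∀ u, x * (g' u) = g u) :
    Adm g' := by
  obtain ⟨y, b, o, q, c, h⟩ := hg
  obtain ⟨y', hy', -⟩ := left_div x.l y
  obtain ⟨b', o', q', h'⟩ := left_left x.l y'
  obtain ⟨b2, o2, q2, h2⟩ := hm_inv b' o' q'
  obtain ⟨q'', h''⟩ := hm_comp b2 b o2 o q2 q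
  refine ⟨y', b2 + b, o2 + o, q'', c - x.r, fun u => ?_⟩
  refine (P_loop.left_div x (g u)).unique (hk u) ?_
  rw [h]
  refine P.ext ?_ ?_
  · simp only [P_mul_l]
    rw [h', ← h'', h2, hy']
  · simp only [P_mul_r]; ring

theorem adm_right_inv (x : P k) (g g' : P k → P k) (hg : Adm g) (hk : ∀ u, (g' u) * x = g u) :
    Adm g' := by
  obtain ⟨y, b, o, q, c, h⟩ := hg
  obtain ⟨y', hy', -⟩ := right_div x.l y
  obtain ⟨b', o', q', h'⟩ := right_left x.l y'
  obtain ⟨b2, o2, q2, h2⟩ := hm_inv b' o' q'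
  obtain ⟨q'', h''⟩ := hm_comp b2 b o2 o q2 q
  refine ⟨y', b2 + b, o2 + o, q'', c - x.r, fun u => ?_⟩
  refine (P_loop.right_div x (g u)).unique (hk u) ?_
  rw [h]
  refine P.ext ?_ ?_
  · simp only [P_mul_l]
    rw [h', ← h'', h2, hy']
  · simp only [P_mul_r]; ring

theorem adm_fix (g : P k → P k) (hg : Adm g) (h0 : g 1 = 1) :
    ∃ (b : V) (o : B) (q : V → F), ∀ u, g u = ⟨hm b o q u.l, u.r⟩ := by
  obtain ⟨y, b, o, q, c, h⟩ := hg
  have h1 : hm b o q 0 = (0, 0, 0, q 0) := by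
    refine Prod.ext rfl (Prod.ext ?_ (Prod.ext ?_ ?_)) <;>
    simp [hm, w21_zero_right, w11_zero_right, w13_zero_right, w22_zero_right]
  have h01 := h 1
  rw [h0] at h01
  have hc : c = 0 := by
    have := congrArg P.r h01
    simpa using this.symm
  have h2 : mul y (0, 0, 0, q 0) = 0 := by
    have := congrArg P.l h01
    simp only [P_one_l] at this
    rw [← h1, ← this]
  obtain ⟨y1, y2, y3, y4⟩ := y
  simp only [mul, w11_zero_right, f1_zero_right, w22_zero_right, w13_zero_right,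
    add_zero, sub_zero] at h2
  have e1 : y1 = 0 := congrArg (fun p : Q => p.1) h2
  have e2 : y2 = 0 := congrArg (fun p : Q => p.2.1) h2
  have e3 : y3 = 0 := congrArg (fun p : Q => p.2.2.1) h2
  have e4 : y4 + q 0 = 0 := congrArg (fun p : Q => p.2.2.2) h2
  subst e1 e2 e3 hc
  refine ⟨b, o, fun v => q v + y4, fun u => ?_⟩
  rw [h]
  refine P.ext ?_ (add_zero _)
  refine Prod.ext ?_ (Prod.ext ?_ (Prod.ext ?_ ?_))
  · simp [mul, hm]
  · simp [mul, hm, f1_zero_left]
  · simp [mul, hm, w11_zero_left]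
  · simp only [mul, hm, w11_zero_left, w22_zero_right, w13_zero_left]; ring

theorem adm_mlt (σ : Equiv.Perm (P k)) (hσ : σ ∈ Mlt (P k)) : Adm (fun u => σ u) := by
  unfold Mlt at hσ
  induction hσ using Subgroup.closure_induction_left with
  | one =>
    refine ⟨0, 0, 0, fun _ => 0, 0, fun u => ?_⟩
    rw [one_mul']
    refine P.ext ?_ (add_zero _).symm
    refine Prod.ext ?_ (Prod.ext ?_ (Prod.ext ?_ ?_)) <;>
    simp [hm, w21_zero_left, w11_zero_left, w13_zero_left, w22_zero_left]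
  | mul_left π hπ σ hσ ih =>
    obtain ⟨a, ha | ha⟩ := hπ
    · have := adm_left a _ ih
      refine cast (congrArg Adm (funext fun u => ?_)) this
      simp [ha]
    · have := adm_right a _ ih
      refine cast (congrArg Adm (funext fun u => ?_)) this
      simp [ha]
  | inv_mul_cancel π hπ σ hσ ih =>
    obtain ⟨a, ha | ha⟩ := hπ
    · refine adm_left_inv a _ _ ih (fun u => ?_)
      have : π (π⁻¹ (σ u)) = σ u := by simp
      rw [ha] at this
      rw [← this]
      simp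
    · refine adm_right_inv a _ _ ih (fun u => ?_)
      have : π (π⁻¹ (σ u)) = σ u := by simp
      rw [ha] at this
      rw [← this]
      simp

theorem inn_comm (σ τ : Equiv.Perm (P k)) (hσ : σ ∈ Inn (P k)) (hτ : τ ∈ Inn (P k)) :
    σ * τ = τ * σ := by
  obtain ⟨hσ, h1⟩ := hσ
  obtain ⟨hτ, h2⟩ := hτ
  obtain ⟨b, o, q, h⟩ := adm_fix _ (adm_mlt σ hσ) h1
  obtain ⟨b', o', q', h'⟩ := adm_fix _ (adm_mlt τ hτ) h2
  ext1 u
  rw [Equiv.Perm.mul_apply, Equiv.Perm.mul_apply, h', h, h, h', hm_comm]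

/-! # The central series -/

/-- elements with only the last coordinate of `Q` and the cyclic coordinate lie in `Zs 1` -/
theorem mem_Z1 (z : F) (c : ZMod k) : (⟨(0, 0, 0, z), c⟩ : P k) ∈ Zs (P k) 1 := by
  intro x y
  obtain ⟨⟨x1, x2, x3, x4⟩, x5⟩ := x
  obtain ⟨⟨y1, y2, y3, y4⟩, y5⟩ := y
  have hone : ∀ a b : P k, a = b → ∃ c ∈ Zs (P k) 0, a = b * c := fun a b h =>
    ⟨1, rfl, by rw [P_loop.mul_one, h]⟩
  refine ⟨hone _ _ ?_, hone _ _ ?_, hone _ _ ?_, hone _ _ ?_⟩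
  · refine P.ext (Prod.ext ?_ (Prod.ext ?_ (Prod.ext ?_ ?_))) ?_ <;>
    simp [mul, w11_zero_left, w11_zero_right, f1_zero_left, f1_zero_right, w22_zero_right,
      w13_zero_left, w13_zero_right, add_comm]
  · refine P.ext (Prod.ext ?_ (Prod.ext ?_ (Prod.ext ?_ ?_))) ?_ <;>
    simp [mul, w11_zero_left, w11_zero_right, f1_zero_left, f1_zero_right, w22_zero_right,
      w13_zero_left, w13_zero_right, add_assoc] <;> ring
  · refine P.ext (Prod.ext ?_ (Prod.ext ?_ (Prod.ext ?_ ?_))) ?_ <;>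
    simp [mul, w11_zero_left, w11_zero_right, f1_zero_left, f1_zero_right, w22_zero_right,
      w13_zero_left, w13_zero_right, add_assoc] <;> ring
  · refine P.ext (Prod.ext ?_ (Prod.ext ?_ (Prod.ext ?_ ?_))) ?_ <;>
    simp [mul, w11_zero_left, w11_zero_right, f1_zero_left, f1_zero_right, w22_zero_right,
      w13_zero_left, w13_zero_right, add_assoc] <;> ring

theorem ex1 (u v : P k) (h1 : u.l.1 = v.l.1) (h2 : u.l.2.1 = v.l.2.1)
    (h3 : u.l.2.2.1 = v.l.2.2.1) : ∃ c ∈ Zs (P k) 1, u = v * c := by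
  refine ⟨⟨(0, 0, 0, u.l.2.2.2 - v.l.2.2.2), u.r - v.r⟩, mem_Z1 _ _, ?_⟩
  refine P.ext (Prod.ext ?_ (Prod.ext ?_ (Prod.ext ?_ ?_))) ?_ <;>
  simp [mul, w11_zero_right, f1_zero_right, w22_zero_right, w13_zero_right, h1, h2, h3]

/-- elements with trivial first coordinate lie in `Zs 2` -/
theorem mem_Z2 (t : W) (b : B) (z : F) (c : ZMod k) : (⟨(0, t, b, z), c⟩ : P k) ∈ Zs (P k) 2 := by
  intro x y
  obtain ⟨⟨x1, x2, x3, x4⟩, x5⟩ := x
  obtain ⟨⟨y1, y2, y3, y4⟩, y5⟩ := y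
  refine ⟨ex1 _ _ ?_ ?_ ?_, ex1 _ _ ?_ ?_ ?_, ex1 _ _ ?_ ?_ ?_, ex1 _ _ ?_ ?_ ?_⟩ <;>
  simp only [P_mul_l, mul, w11_zero_left, w11_zero_right, f1_zero_left, f1_zero_right, zero_add,
    add_zero, sub_zero] <;> abel

theorem ex2 (u v : P k) (h1 : u.l.1 = v.l.1) : ∃ c ∈ Zs (P k) 2, u = v * c := by
  refine ⟨⟨(0, u.l.2.1 - v.l.2.1, u.l.2.2.1 - v.l.2.2.1,
    u.l.2.2.2 - v.l.2.2.2 + w13 v.l.1 (u.l.2.1 - v.l.2.1)), u.r - v.r⟩, mem_Z2 _ _ _ _, ?_⟩
  refine P.ext (Prod.ext ?_ (Prod.ext ?_ (Prod.ext ?_ ?_))) ?_ <;>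
  simp [mul, w11_zero_right, f1_zero_right, w22_zero_right, h1]
  · ring

theorem Z3_univ : Zs (P k) 3 = Set.univ := by
  refine Set.eq_univ_of_forall (fun a x y => ?_)
  refine ⟨ex2 _ _ ?_, ex2 _ _ ?_, ex2 _ _ ?_, ex2 _ _ ?_⟩ <;>
  simp only [P_mul_l, mul] <;> abel

theorem Z1_central (c : P k) (hc : c ∈ Zs (P k) 1) (u v : Q) : mul c.l u = mul u c.l ∧
    mul (mul c.l u) v = mul c.l (mul u v) ∧
    mul (mul u c.l) v = mul u (mul c.l v) ∧
    mul (mul u v) c.l = mul u (mul v c.l) := by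
  obtain ⟨⟨c1, e1, h1⟩, ⟨c2, e2, h2⟩, ⟨c3, e3, h3⟩, ⟨c4, e4, h4⟩⟩ := hc ⟨u, 0⟩ ⟨v, 0⟩
  rw [show c1 = 1 from e1, P_loop.mul_one] at h1
  rw [show c2 = 1 from e2, P_loop.mul_one] at h2
  rw [show c3 = 1 from e3, P_loop.mul_one] at h3
  rw [show c4 = 1 from e4, P_loop.mul_one] at h4
  exact ⟨congrArg P.l h1, congrArg P.l h2, congrArg P.l h3, congrArg P.l h4⟩

theorem one_mem_Z1 : (1 : P k) ∈ Zs (P k) 1 := mem_Z1 0 0

theorem not_comm (c : P k) (hc : c ∈ Zs (P k) 1) :
    (⟨(![1, 0, 0, 0], 0, 0, 0), 0⟩ : P k) * ⟨(![0, 1, 0, 0], 0, 0, 0), 0⟩ ≠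
      (⟨(![0, 1, 0, 0], 0, 0, 0), 0⟩ * ⟨(![1, 0, 0, 0], 0, 0, 0), 0⟩) * c := fun h =>
  not_central_comm c.l (Z1_central c hc) (congrArg P.l h)

theorem P_class : HasClass (P k) 3 := by
  refine ⟨Z3_univ, fun j hj huniv => ?_⟩
  have hmem : (⟨(![1, 0, 0, 0], 0, 0, 0), 0⟩ : P k) ∈ Zs (P k) j := by rw [huniv]; trivial
  have hcase : j = 0 ∨ j = 1 ∨ j = 2 := by omega
  rcases hcase with rfl | rfl | rfl
  · have h1 : (⟨(![1, 0, 0, 0], 0, 0, 0), 0⟩ : P k) = 1 := hmem
    have h2 := congrFun (congrArg (fun p : P k => p.l.1) h1) 0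
    simp at h2
  · obtain ⟨⟨c, hc, h⟩, -⟩ := hmem ⟨(![0, 1, 0, 0], 0, 0, 0), 0⟩ 1
    rw [show c = 1 from hc] at h
    exact not_comm 1 one_mem_Z1 h
  · obtain ⟨⟨c, hc, h⟩, -⟩ := hmem ⟨(![0, 1, 0, 0], 0, 0, 0), 0⟩ 1
    exact not_comm c hc h

/-- the carrier as a product -/
def eqv : P k ≃ Q × ZMod k where
  toFun u := (u.l, u.r)
  invFun u := ⟨u.1, u.2⟩
  left_inv _ := rfl
  right_inv _ := rfl

theorem P_card : Nat.card (P k) = 3 ^ 15 * k := by
  rw [Nat.card_congr eqv, Nat.card_prod, Nat.card_zmod]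
  congr 1
  have h4 : Nat.card V = 3 ^ 4 := by simp [V, F]
  have h6 : Nat.card B = 3 ^ 6 := by simp [B, F]
  have h1 : Nat.card F = 3 := by simp [F]
  rw [Nat.card_prod, Nat.card_prod, Nat.card_prod, h4, h6, h1]
  norm_num

/-- For every odd number `k` there is a finite loop of odd order `3 ^ 15 * k`, nilpotent of
class exactly `3`, whose inner mapping group is abelian. -/
theorem result (k : ℕ) (hk : Odd k) :
    ∃ (X : Type) (_ : Mul X) (_ : One X), IsLoop X ∧ Finite X ∧ Nat.card X = 3 ^ 15 * k ∧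
      Odd (Nat.card X) ∧ HasClass X 3 ∧ ∀ σ ∈ Inn X, ∀ τ ∈ Inn X, σ * τ = τ * σ := by
  have : NeZero k := ⟨by rintro rfl; exact absurd hk (by decide)⟩
  refine ⟨P k, inferInstance, inferInstance, P_loop, Finite.of_equiv _ eqv.symm, P_card, ?_,
    P_class, fun σ hσ τ hτ => inn_comm σ τ hσ hτ⟩
  rw [P_card]
  exact Odd.mul (by decide) hk

end Pool.Agent.Results.MP_5cdc7f_al.OddLoop
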